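import Pool.Agent.Y121.ZI.Stm
import Pool.Agent.Y133.Half.Seq
import Pool.Agent.Y133.Half.SS

/-!
ZI-NIL: numerically trivial operators on good objects are nilpotent (helper37; adapted from
`Y133/Half/Chain.lean` of helper133).
-/

set_option autoImplicit false

open scoped TensorProduct

universe u v w

namespace Pool.Agent.Y37.ZI

open Module Pool.Agent.Y133.Half Pool.Agent.Y121.ZI Pool.Agent.Y121.ZI.NCTheory

open Filter Topology in
lemma exists_close {B : ℝ} (hB : 0 < B) (j : ℕ) {ε : ℝ} (hε : 0 < ε) :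
    ∃ c : ℝ, 0 ≤ c ∧ c < B ∧ B ^ j - ε < c ^ j := by
  have h1 : Tendsto (fun c : ℝ => c ^ j) (𝓝[<] B) (𝓝 (B ^ j)) :=
    ((continuous_pow j).tendsto B).mono_left nhdsWithin_le_nhds
  have h2 : ∀ᶠ c in 𝓝[<] B, B ^ j - ε < c ^ j := h1.eventually (lt_mem_nhds (by linarith))
  have h3 : ∀ᶠ c in 𝓝[<] B, c ∈ Set.Iio B := self_mem_nhdsWithin
  have h4 : ∀ᶠ c in 𝓝[<] B, 0 < c := (nhdsWithin_le_nhds (a := B)) (lt_mem_nhds hB)
  obtain ⟨c, hc⟩ := (h2.and (h3.and h4)).exists
  exact ⟨c, hc.2.2.le, hc.2.1, hc.1⟩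

section

variable {K V : Type*} [Field K] [AddCommGroup V] [Module K V] [FiniteDimensional K V]

lemma finrank_compl [CharZero K] {g : Module.End K V} (hg : g ∘ₗ g = g) :
    (LinearMap.id - g) ∘ₗ (LinearMap.id - g) = LinearMap.id - g ∧
    finrank K (LinearMap.range (LinearMap.id - g)) + finrank K (LinearMap.range g) =
      finrank K V := by
  have hG : g * g = g := hg
  have hG' : (1 - g) ∘ₗ (1 - g) = 1 - g := by
    change (1 - g) * (1 - g) = 1 - g
    rw [mul_sub, sub_mul, sub_mul, hG]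
    simp
  refine ⟨hG', ?_⟩
  have e1 := trace_idem hG'
  have e2 := trace_idem (K := K) (f := g) hG
  rw [map_sub, e2, Module.End.one_eq_id, LinearMap.trace_id] at e1
  have e3 : ((finrank K (LinearMap.range (LinearMap.id - g)) +
      finrank K (LinearMap.range g) : ℕ) : K) = ((finrank K V : ℕ) : K) := by
    rw [Nat.cast_add]
    have : (finrank K (LinearMap.range (LinearMap.id - g)) : K) =
      ((finrank K V : ℕ) : K) - (finrank K (LinearMap.range g) : K) := e1.symm
    rw [this]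
    ring
  exact_mod_cast e3

lemma finrank_range_pos {g : Module.End K V} (h0 : g ≠ 0) :
    1 ≤ finrank K (LinearMap.range g) := by
  rw [Nat.one_le_iff_ne_zero]
  intro h
  apply h0
  have := Submodule.finrank_eq_zero.1 h
  exact LinearMap.range_eq_bot.1 this

end

variable {K : Type u} [Field K] [CharZero K] {T : NCTheory.{u, v, w} K}

omit [CharZero K] in
/-- A non-nilpotent numerically trivial operator yields an idempotent. -/
lemma exists_idem {P : T.Obj} {x : T.H P →ₗ[K] T.H P} (hx : x ∈ Nn P P)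
    (hn : ¬ ∃ n, x ^ n = 0) (Z : T.Obj) :
    ∃ g ∈ T.S P P, g ∘ₗ g = g ∧ g ≠ 0 ∧ a P g Z LinearMap.id = 0 := by
  have key : ∀ y ∈ T.S P P, LinearMap.trace K (T.H P) (T.par P ∘ₗ x ∘ₗ y) = 0 := by
    intro y hy
    have h1 := hx.2 y hy
    have h2 := S_par hy
    rw [← LinearMap.comp_assoc, LinearMap.trace_comp_comm', ← LinearMap.comp_assoc, h2,
      LinearMap.comp_assoc]
    exact h1
  let X : Fin 2 → T.Obj := ![P, Z]
  obtain ⟨g, hg, hgg, h0, hB⟩ := (cat X).exists_idem (i := 0) (x := x) hx.1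
    (fun y hy => key y hy) hn
  refine ⟨g, hg, hgg, h0, ?_⟩
  have h1 : F P Z g LinearMap.id = 0 := hB 1
  change rk (F P Z g LinearMap.id) = 0
  rw [h1, rk]
  simp

/-- **ZI-NIL.** -/
theorem nil (T : NCTheory.{u, v, w} K) (h2 : SDual2 T) (hcs : SCS T) : SNil T := by
  intro A hfull hpos hA P j hgood x hx
  by_contra hn
  have hX' : (0 : ℝ) < (finrank K (T.H A) : ℝ) ^ 2 := by positivity
  obtain ⟨c, hc0, hcB, hc⟩ := exists_close hX' j one_pos
  obtain ⟨l₀, hl₀⟩ := hfull c hc0 hcB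
  have h1 := ratio_pow hc0 hl₀ j l₀ le_rfl
  obtain ⟨g, hg, hgg, h0, hr⟩ := exists_idem hx hn (zz A l₀)
  obtain ⟨hg', hdim⟩ := finrank_compl hgg
  have hb0 : b P g (T.pow A l₀) = 0 := by
    have := dual_move (X := P) (Y := T.pow A l₀) (h2 (T.pow A l₀)).1 g LinearMap.id
    rw [ex_id] at this
    have h3 : b P g (T.pow A l₀) ≤ 0 := this.trans hr.le
    omega
  have hadd : b P LinearMap.id (T.pow A l₀) ≤
      b P g (T.pow A l₀) + b P (LinearMap.id - g) (T.pow A l₀) := by
    have h3 := a_add_le (A := T.ten P (T.pow A l₀)) (B := T.pow A l₀)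
      (ex g (LinearMap.id : T.H (T.pow A l₀) →ₗ[K] T.H (T.pow A l₀)))
      (ex (LinearMap.id - g) (LinearMap.id : T.H (T.pow A l₀) →ₗ[K] T.H (T.pow A l₀)))
      LinearMap.id
    rw [← ex_add_left, add_sub_cancel] at h3
    exact h3
  have h3 : b P (LinearMap.id - g) (T.pow A l₀) ≤
      finrank K (LinearMap.range (LinearMap.id - g)) * al A l₀ :=
    hcs P (LinearMap.id - g) (Submodule.sub_mem _ S_id hg) hg' (T.pow A l₀)
  have h4 := finrank_range_pos h0
  have h6 := hgood.2 l₀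
  have h5 : al A (l₀ + j) + al A l₀ ≤ finrank K (T.H A) ^ (2 * j) * al A l₀ := by
    have h7 : finrank K (LinearMap.range (LinearMap.id - g)) + 1 ≤
        finrank K (T.H A) ^ (2 * j) := by
      rw [← hgood.1, ← hdim]; omega
    calc al A (l₀ + j) + al A l₀ ≤
        finrank K (LinearMap.range (LinearMap.id - g)) * al A l₀ + al A l₀ := by
          apply Nat.add_le_add_right
          omega
      _ = (finrank K (LinearMap.range (LinearMap.id - g)) + 1) * al A l₀ := by ring
      _ ≤ _ := Nat.mul_le_mul_right _ h7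
  have h8 : (al A (l₀ + j) : ℝ) + al A l₀ ≤ ((finrank K (T.H A) : ℝ) ^ 2) ^ j * al A l₀ := by
    rw [← pow_mul]
    exact_mod_cast h5
  have h9 : (0 : ℝ) < al A l₀ := by exact_mod_cast hpos l₀
  nlinarith [mul_lt_mul_of_pos_right hc h9]

end Pool.Agent.Y37.ZI
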